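import Pool.Agent.H56.DyadicProof

/-!
# Dyadic `U^α` means are not bounded on the endpoint martingale Hardy space

Negative answer to Q1 of `MP_d27c5e_an`, for every `0 < α < 1`. All definitions are in
`Pool.Agent.H56.DyadicDefs`.
-/

open Pool.Agent.H56.Dyadic
open scoped ENNReal

/-- **Negative answer to Q1, for every `α ∈ (0,1)`.** With `p = 1/(1+α)`, the operators
`U^α_{2^n} : H_p → L_p` are not uniformly bounded; quantitatively, their norms are at least
`c_α n^{1+α}` for all `n ≥ 3`. -/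
theorem Pool.Agent.Results.MP_d27c5e_an.DyadicUnbounded.result (α : ℝ) (h0 : 0 < α) (h1 : α < 1) :
    ((⨆ n : ℕ, dyadicNorm α n) = ∞) ∧
      ∃ c : ℝ, 0 < c ∧ ∀ n : ℕ, 3 ≤ n →
        ENNReal.ofReal (c * (n : ℝ) ^ (1 + α)) ≤ dyadicNorm α n :=
  main_result α h0 h1
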